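import Pool.Agent.Y121.ZI.Pow
import Pool.Agent.Y121.ZI.GrDefs

/-!
# MP_a60482_ag: the index law for the Künneth components, for an arbitrary Weil cohomology

For every smooth projective variety `X` and every Weil cohomology theory: the dimension of the space
of classes on `X^{2n}` which are generated by cycles and the Künneth components `π_i` of the diagonal
of `X`, divided by the rank of the group of cycles on `X^{2n}` modulo numerical equivalence,
converges to some `N` in `{1, 2, 3, …, ∞}`; `N = 1` if and only if all `π_i` are in the `K`-span of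
the classes of cycles (conjecture `C(X)`) and homological and numerical equivalence agree on all
powers `X^n`; if `N` is finite, the latter holds and all these classes are generated by cycles and
at most `N - 1` of them.
-/

universe u v w

namespace Pool.Agent.Results.MP_a60482_ag.IndexLaw

open Pool.Agent.Y121.ZI Pool.Agent.Y121.ZI.NCTheory

/-- The index law for the classes generated by cycles and the Künneth components. -/
theorem result {K : Type u} [Field K] [CharZero K] (T : GradedTheory.{u, v, w} K) (X : T.Obj)
    [Nontrivial (T.H X)] :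
    ∃ N : ℕ∞, 1 ≤ N ∧ T.PowIndex (T.classesOf X (Set.range (T.pr X))) X N ∧
      (N = 1 ↔ (∀ i, InSpan (T.cor X X) (T.pr X i)) ∧ ∀ n, T.StdD (T.pow X n)) ∧
      (N ≠ ⊤ → (∀ n, T.StdD (T.pow X n)) ∧
        T.PowGenerated (T.classesOf X (Set.range (T.pr X))) X N) := by
  obtain ⟨N, h1, h2, h3, h4⟩ :=
    NCTheory.pow_law (Ops.cls T.toNCTheory X (Set.range (T.pr X))) T.dual X
  refine ⟨N, h1, h2, ?_, h4⟩
  rw [h3]
  refine and_congr_left fun _ => ⟨fun h5 i => ?_, fun h5 n => ?_⟩
  · exact Ops.iff_ops.1 (fun n => (Ret.of_iso (oiso_bi T.dual X n n)).le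
      (Ops.cls T.toNCTheory X (Set.range (T.pr X))) (h5 _)) _ ⟨i, rfl⟩
  · refine (ret_pow_bi T.dual X n).le
      (Ops.cls T.toNCTheory X (Set.range (T.pr X))) (Ops.iff_ops.2 ?_ n)
    rintro _ ⟨i, rfl⟩
    exact h5 i

end Pool.Agent.Results.MP_a60482_ag.IndexLaw
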