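import Pool.Agent.Y99.GH.Three

/-!
# The Kunneth standard conjecture for a generic section

Let `Y` be a generic section of `Z` in the class of a hard Lefschetz divisor `E` (see
`IsGenericSection`; it holds for the geometric generic member of a very ample linear system with
nonzero vanishing cohomology). For `j < dim Y` the Kunneth projector of `Y` onto `H^j(Y)` is
algebraic if and only if the Kunneth projector of `Z` onto `H^j(Z)` is algebraic and the cup
product `H^j(Z) → H^(j+2)(Z)` with the class of `E` has an algebraic left inverse. The conjecture C
holds for `Y` if and only if this is the case for all `j < dim Y`.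
-/

open CategoryTheory AlgebraicGeometry

universe u v

namespace Pool.Agent.Results.MP_a60482_ag.KunnethGenericSection

open Pool.Agent.H914 Pool.Agent.H914.VarClass Pool.Agent.H914.VarClass.Obj
  Pool.Agent.H914.WeilCohomology Pool.Agent.W550.B Pool.Agent.Y99.GH

/-- **When the Kunneth standard conjecture passes to a generic section.** -/
theorem result {k : Type u} [Field k] {𝒱 : VarClass k} {ops : CycleOps 𝒱}
    (W : WeilCohomology.{u, v} ops) {Z Y : 𝒱.Obj} {E : Z.Cycles}
    (hE : IsLefschetzDivisor W Z E) {i : Y ⟶ Z} (hY : IsGenericSection W i E) :
    (∀ j < Y.dim, (KunnethOne W Y j ↔ KunnethOne W Z j ∧ LeftInverse W Z E j)) ∧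
    ((∀ j, KunnethOne W Y j) ↔ ∀ j < Y.dim, KunnethOne W Z j ∧ LeftInverse W Z E j) :=
  main_three hE hY

end Pool.Agent.Results.MP_a60482_ag.KunnethGenericSection
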