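import Pool.Agent.Y712.AJ.Mp

/-!
# The Kunneth standard conjecture for all varieties and for rational varieties

Let `W` be a Weil cohomology theory on a class of smooth proper varieties such that the squares
`X × X` have generic sections (see `HasSections`). Let `R` be a class of varieties (the blow-ups of
projective spaces in one smooth centre) such that the cohomology of every `X` is, in all large
dimensions `N` and for all shifts `0 < j < N - dim X`, a direct summand of the cohomology of a
member of `R` of dimension `N` (see `HasBlowUps`). Then the following are equivalent.

* The Lefschetz standard conjecture for all varieties.
* The Kunneth standard conjecture for all varieties.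
* The sign conjecture for all varieties.
* For all varieties in `R` of even dimension `N` the one Kunneth projector onto the middle
  cohomology `H^N` is algebraic.
* The same for all varieties in `R` of odd dimension.
* The sign conjecture for the varieties in `R`.
* The Lefschetz standard conjecture for the varieties in `R`.
-/

open CategoryTheory AlgebraicGeometry

universe u v

namespace Pool.Agent.Results.MP_a60482_ag.RationalVarieties

open Pool.Agent.H914 Pool.Agent.Y99.GH Pool.Agent.Y712.Mp

/-- **The conjecture C for all varieties is equivalent to the algebraicity of the middle Kunneth
projector of the rational varieties of one parity, and to the sign conjecture for rational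
varieties.** -/
theorem result {k : Type u} [Field k] {𝒱 : VarClass k} {ops : CycleOps 𝒱}
    (W : WeilCohomology.{u, v} ops) (R : 𝒱.Obj → Prop) (hW : HasSections W)
    (hR : HasBlowUps W R) :
    List.TFAE [AllB W, AllC W, AllSign W, MiddleR W R 0, MiddleR W R 1,
      ∀ B, R B → SignConj W B, ∀ B, R B → StandardB W B] :=
  main hW hR

end Pool.Agent.Results.MP_a60482_ag.RationalVarieties
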