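import Pool.Agent.Y112.KG.Main

/-!
# The Künneth standard conjecture for a tensor product is the one for the factors

`C` is a `ℚ`-linear rigid symmetric monoidal category with a symmetric monoidal additive functor to
finite dimensional graded vector spaces over a field `K`, for example the category of motives modulo
homological equivalence with coefficients in `ℚ` (or in `K`) and a Weil cohomology.
-/

set_option autoImplicit false

open CategoryTheory Limits MonoidalCategory

namespace Pool.Agent.Results.MP_a60482_ag.TensorKunneth

open Pool.Agent.Y112.SR Pool.Agent.Y112.KG

universe v u w

theorem result {C : Type u} [Category.{v} C] [Preadditive C] [Linear ℚ C] [MonoidalCategory C]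
    [SymmetricCategory C] [RightRigidCategory C] {K : Type w} [Field K]
    (R : GradedRealisation C K) (M N : C) (h : ¬ IsZero (R.H.obj (M ⊗ N))) :
    R.Kunneth (M ⊗ N) ↔ R.Kunneth M ∧ R.Kunneth N :=
  kunneth_iff R M N h

end Pool.Agent.Results.MP_a60482_ag.TensorKunneth
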